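import Mathlib

/-!
# Coning and Betti numbers of trivariate cofactor complexes
-/

set_option autoImplicit false

namespace Pool.Agent.Results.MP_9cf723_co.Coning

open MvPolynomial Finset

/-- Real polynomials in `x, y, z`. -/
abbrev P : Type := MvPolynomial (Fin 3) ℝ

/-- The affine form `A x + B y + C z + D`. -/
noncomputable def aff (a : Fin 3 → ℝ) (d : ℝ) : P := ∑ i, C (a i) * X i + C d

/-- `I^1_ψ(q)`: the affine forms vanishing at the points `q u`, `u ∈ ψ`. -/
def formsVanishing {U : Type} (q : U → Fin 3 → ℝ) (ψ : Finset U) : Set P :=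
  {f | (∃ a d, f = aff a d) ∧ ∀ u ∈ ψ, eval (q u) f = 0}

/-- `I^s_ψ(q)`: the span of the `s`-th powers of the forms in `I^1_ψ(q)` if `ψ ≠ ∅`, and the space
`P_s` of all polynomials of total degree at most `s` if `ψ = ∅`. -/
noncomputable def cofactorSpace {U : Type} (q : U → Fin 3 → ℝ) (s : ℕ) (ψ : Finset U) :
    Submodule ℝ P :=
  if ψ.card = 0 then restrictTotalDegree (Fin 3) ℝ s
  else Submodule.span ℝ {g | ∃ f ∈ formsVanishing q ψ, g = f ^ s}

/-- The chains of the cofactor complex on the faces with `k` vertices: functions `c` with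
`c ψ ∈ I^s_ψ(q)` for the faces `ψ` with `k` vertices and `c ψ = 0` for all other sets `ψ`. -/
noncomputable def chains {U : Type} (Γ : Set (Finset U)) (q : U → Fin 3 → ℝ) (s k : ℕ) :
    Submodule ℝ (Finset U → P) where
  carrier := {c | ∀ ψ, (ψ ∈ Γ ∧ ψ.card = k → c ψ ∈ cofactorSpace q s ψ) ∧
    (¬ (ψ ∈ Γ ∧ ψ.card = k) → c ψ = 0)}
  add_mem' := by
    intro a b ha hb ψ
    refine ⟨fun h => Submodule.add_mem _ ((ha ψ).1 h) ((hb ψ).1 h), fun h => ?_⟩
    rw [Pi.add_apply, (ha ψ).2 h, (hb ψ).2 h, add_zero]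
  zero_mem' := fun ψ => ⟨fun _ => Submodule.zero_mem _, fun _ => rfl⟩
  smul_mem' := by
    intro r a ha ψ
    refine ⟨fun h => Submodule.smul_mem _ _ ((ha ψ).1 h), fun h => ?_⟩
    rw [Pi.smul_apply, (ha ψ).2 h, smul_zero]

/-- The boundary operator. The simplices are oriented by a linear order on the vertices; the
incidence number of `θ` and `θ ∪ {u}` is `(-1) ^ #{x ∈ θ | x < u}`. -/
noncomputable def boundary (U : Type) [Fintype U] [LinearOrder U] :
    (Finset U → P) →ₗ[ℝ] (Finset U → P) where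
  toFun c := fun θ => ∑ u ∈ θᶜ, (-1 : ℝ) ^ (θ.filter (fun x => x < u)).card • c (insert u θ)
  map_add' a b := by
    funext θ
    simp only [Pi.add_apply, smul_add, Finset.sum_add_distrib]
  map_smul' r a := by
    funext θ
    simp only [Pi.smul_apply, RingHom.id_apply, Finset.smul_sum]
    exact Finset.sum_congr rfl fun u _ => smul_comm _ _ _

/-- The cycles on the faces with `k` vertices. -/
noncomputable def cycles {U : Type} [Fintype U] [LinearOrder U] (Γ : Set (Finset U))
    (q : U → Fin 3 → ℝ) (s k : ℕ) : Submodule ℝ (Finset U → P) :=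
  chains Γ q s k ⊓ LinearMap.ker (boundary U)

/-- The dimension of the homology of the cofactor complex at the faces with `k` vertices, i.e. in
degree `k - 1`: the Betti number `β_{k-1}`. -/
noncomputable def betti {U : Type} [Fintype U] [LinearOrder U] (Γ : Set (Finset U))
    (q : U → Fin 3 → ℝ) (s k : ℕ) : ℕ :=
  Module.finrank ℝ (cycles Γ q s k ⧸
    ((chains Γ q s (k + 1)).map (boundary U)).comap (cycles Γ q s k).subtype)

/-- A set of vertices of `V` as a set of vertices of the cone, whose vertex set is `V` with the new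
vertex `⊥`. -/
def up {V : Type} (ψ : Finset V) : Finset (WithBot V) :=
  ψ.map ⟨(WithBot.some : V → WithBot V), WithBot.coe_injective⟩

/-- The truncated cone `(w * Δ)²` over a complex, where `w` is the vertex `⊥`. -/
def truncatedCone {V : Type} [LinearOrder V] (Δ : Set (Finset V)) : Set (Finset (WithBot V)) :=
  {ψ | ψ.card ≤ 3 ∧ ∃ τ ∈ Δ, ψ = up τ ∨ ψ = insert ⊥ (up τ)}

/-- The configuration that extends `p` by `w ↦ pw`. -/
def coneConfig {V : Type} (pw : Fin 3 → ℝ) (p : V → Fin 3 → ℝ) : WithBot V → Fin 3 → ℝ :=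
  fun u => WithBot.recBotCoe pw p u

/-- `pw` lies in no proper affine subspace of `ℝ³` that is spanned by points `p v`. -/
def GeneralPosition {V : Type} (p : V → Fin 3 → ℝ) (pw : Fin 3 → ℝ) : Prop :=
  ∀ S : Set V, affineSpan ℝ (p '' S) ≠ ⊤ → pw ∉ affineSpan ℝ (p '' S)

/-! ### Algebra of powers of affine forms -/

theorem eval_aff (w : Fin 3 → ℝ) (a : Fin 3 → ℝ) (d : ℝ) :
    eval w (aff a d) = ∑ i, a i * w i + d := by
  simp [aff]

theorem aff_add (a b : Fin 3 → ℝ) (c d : ℝ) : aff a c + aff b d = aff (a + b) (c + d) := by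
  simp only [aff, Pi.add_apply, C_add, add_mul, Finset.sum_add_distrib]
  ring

theorem smul_aff (r : ℝ) (a : Fin 3 → ℝ) (c : ℝ) : r • aff a c = aff (r • a) (r * c) := by
  simp only [aff, Pi.smul_apply, smul_eq_mul, C_mul, MvPolynomial.smul_eq_C_mul, mul_add,
    Finset.mul_sum, mul_assoc]

theorem aff_zero : aff 0 0 = 0 := by simp [aff]

/-- The affine forms vanishing on `ψ` as a submodule. -/
noncomputable def W {U : Type} (q : U → Fin 3 → ℝ) (ψ : Finset U) : Submodule ℝ P where
  carrier := formsVanishing q ψ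
  add_mem' := by
    rintro f g ⟨⟨a, c, rfl⟩, hf⟩ ⟨⟨b, d, rfl⟩, hg⟩
    refine ⟨⟨a + b, c + d, aff_add _ _ _ _⟩, fun u hu => ?_⟩
    rw [map_add, hf u hu, hg u hu, add_zero]
  zero_mem' := ⟨⟨0, 0, aff_zero.symm⟩, fun u _ => map_zero _⟩
  smul_mem' := by
    rintro r f ⟨⟨a, c, rfl⟩, hf⟩
    refine ⟨⟨r • a, r * c, smul_aff _ _ _⟩, fun u hu => ?_⟩
    rw [MvPolynomial.smul_eval, hf u hu, mul_zero]

theorem mem_W {U : Type} {q : U → Fin 3 → ℝ} {ψ : Finset U} {f : P} :
    f ∈ W q ψ ↔ (∃ a d, f = aff a d) ∧ ∀ u ∈ ψ, eval (q u) f = 0 := Iff.rfl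

/-- Coefficients of a polynomial function with values in a subspace. -/
theorem coeff_mem {M : Type} [AddCommGroup M] [Module ℝ M] (N : Submodule ℝ M) (K : ℕ) (m : ℕ → M)
    (h : ∀ t : ℝ, ∑ k ∈ range K, t ^ k • m k ∈ N) : ∀ k < K, m k ∈ N := by
  intro k hk
  rw [← Submodule.Quotient.mk_eq_zero]
  rw [← Module.forall_dual_apply_eq_zero_iff ℝ]
  intro φ
  let p : Polynomial ℝ := ∑ k ∈ range K, Polynomial.C (φ (Submodule.Quotient.mk (m k))) *
    Polynomial.X ^ k
  have hp : p = 0 := by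
    apply Polynomial.funext
    intro t
    have h1 : (Submodule.Quotient.mk (∑ k ∈ range K, t ^ k • m k) : M ⧸ N) = 0 := by
      rw [Submodule.Quotient.mk_eq_zero]
      exact h t
    have h2 : φ (Submodule.Quotient.mk (∑ k ∈ range K, t ^ k • m k)) = 0 := by rw [h1, map_zero]
    have h3 : (Submodule.Quotient.mk (∑ k ∈ range K, t ^ k • m k) : M ⧸ N) =
        ∑ k ∈ range K, t ^ k • (Submodule.Quotient.mk (m k) : M ⧸ N) := by
      rw [← Submodule.mkQ_apply, map_sum]
      rfl
    rw [h3, map_sum] at h2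
    simp only [p, Polynomial.eval_finsetSum, Polynomial.eval_mul, Polynomial.eval_C,
      Polynomial.eval_pow, Polynomial.eval_X, Polynomial.eval_zero]
    rw [← h2]
    apply Finset.sum_congr rfl
    intro k _
    rw [map_smul, smul_eq_mul, mul_comm]
  have h4 : p.coeff k = φ (Submodule.Quotient.mk (m k)) := by
    simp only [p, Polynomial.finsetSum_coeff, Polynomial.coeff_C_mul, Polynomial.coeff_X_pow]
    rw [Finset.sum_eq_single k]
    · simp
    · intro b _ hb
      simp [Ne.symm hb]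
    · intro h
      exact absurd (Finset.mem_range.2 hk) h
  rw [← h4, hp, Polynomial.coeff_zero]

/-- Polarization. -/
theorem span_pow_mul (W : Submodule ℝ P) (n : ℕ) {a x : P} (hx : x ∈ W)
    (ha : a ∈ Submodule.span ℝ {g | ∃ f ∈ W, g = f ^ n}) :
    a * x ∈ Submodule.span ℝ {g | ∃ f ∈ W, g = f ^ (n + 1)} := by
  induction ha using Submodule.span_induction with
  | mem g hg =>
    obtain ⟨f, hf, rfl⟩ := hg
    have key := coeff_mem (Submodule.span ℝ {g | ∃ f ∈ W, g = f ^ (n + 1)}) (n + 1 + 1)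
      (fun k => x ^ k * f ^ (n + 1 - k) * ((n + 1).choose k : P)) (by
        intro t
        refine Submodule.subset_span ⟨t • x + f, W.add_mem (W.smul_mem t hx) hf, ?_⟩
        rw [add_pow]
        apply Finset.sum_congr rfl
        intro k _
        rw [smul_pow, smul_mul_assoc, smul_mul_assoc]) 1 (by omega)
    simp only [pow_one, Nat.add_sub_cancel, Nat.choose_one_right] at key
    have h2 : f ^ n * x = ((n + 1 : ℕ) : ℝ)⁻¹ • (x * f ^ n * ((n + 1 : ℕ) : P)) := by
      have h3 : ((n + 1 : ℕ) : P) = C ((n + 1 : ℕ) : ℝ) := by simp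
      rw [h3, MvPolynomial.smul_eq_C_mul]
      have h4 : C (σ := Fin 3) (((n + 1 : ℕ) : ℝ)⁻¹) * C ((n + 1 : ℕ) : ℝ) = 1 := by
        rw [← C_mul, inv_mul_cancel₀ (by positivity), C_1]
      calc f ^ n * x = (C (σ := Fin 3) (((n + 1 : ℕ) : ℝ)⁻¹) * C ((n + 1 : ℕ) : ℝ)) *
            (x * f ^ n) := by rw [h4]; ring
        _ = _ := by ring
    rw [h2]
    exact Submodule.smul_mem _ _ key
  | zero => simp
  | add g h _ _ ihg ihh =>
    rw [add_mul]
    exact Submodule.add_mem _ ihg ihh
  | smul r g _ ihg =>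
    rw [smul_mul_assoc]
    exact Submodule.smul_mem _ _ ihg

theorem span_pow_eq (W : Submodule ℝ P) (n : ℕ) :
    Submodule.span ℝ {g | ∃ f ∈ W, g = f ^ n} = W ^ n := by
  apply le_antisymm
  · rw [Submodule.span_le]
    rintro g ⟨f, hf, rfl⟩
    exact Submodule.pow_mem_pow W hf n
  · induction n with
    | zero =>
      rw [pow_zero, Submodule.one_eq_span, Submodule.span_le]
      rintro g rfl
      exact Submodule.subset_span ⟨0, W.zero_mem, by simp⟩
    | succ n ih =>
      rw [pow_succ, Submodule.mul_le]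
      intro a ha x hx
      exact span_pow_mul W n hx (ih ha)

/-- Polynomials of degree at most `n` are spanned by products of `n` affine forms. -/
theorem restrict_eq {U : Type} (q : U → Fin 3 → ℝ) (n : ℕ) :
    restrictTotalDegree (Fin 3) ℝ n = (W q (∅ : Finset U)) ^ n := by
  have hone : (1 : P) ∈ W q (∅ : Finset U) := by
    rw [mem_W]
    exact ⟨⟨0, 1, by simp [aff]⟩, by simp⟩
  have hX : ∀ i : Fin 3, (X i : P) ∈ W q (∅ : Finset U) := by
    intro i
    rw [mem_W]
    refine ⟨⟨Pi.single i 1, 0, ?_⟩, by simp⟩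
    simp only [aff, C_0, add_zero]
    rw [Finset.sum_eq_single i]
    · simp
    · intro b _ hb
      simp [hb]
    · simp
  have hmono : ∀ k m : ℕ, k ≤ m → (W q (∅ : Finset U)) ^ k ≤ (W q (∅ : Finset U)) ^ m := by
    intro k m hkm
    obtain ⟨j, rfl⟩ := Nat.exists_eq_add_of_le hkm
    rw [pow_add]
    intro f hf
    have h1 : (1 : P) ∈ (W q (∅ : Finset U)) ^ j := by
      have := Submodule.pow_mem_pow _ hone j
      rwa [one_pow] at this
    have := Submodule.mul_mem_mul hf h1
    rwa [mul_one] at this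
  apply le_antisymm
  · intro f hf
    rw [mem_restrictTotalDegree] at hf
    rw [f.as_sum]
    apply Submodule.sum_mem
    intro m hm
    have hdeg : (m.sum fun _ e => e) ≤ n := (le_totalDegree hm).trans hf
    rw [monomial_eq]
    have h1 : ∀ (t : Fin 3 →₀ ℕ), (t.prod fun i e => (X i : P) ^ e) ∈
        (W q (∅ : Finset U)) ^ (t.sum fun _ e => e) := by
      intro t
      induction t using Finsupp.induction with
      | zero => simpa using ⟨1, C_1⟩
      | single_add i e g hi he ih =>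
        rw [Finsupp.prod_add_index' (by simp) (by intro a b c; exact pow_add _ _ _),
          Finsupp.sum_add_index' (by simp) (by simp), Finsupp.prod_single_index (by simp),
          Finsupp.sum_single_index (by simp), pow_add]
        exact Submodule.mul_mem_mul (Submodule.pow_mem_pow _ (hX i) e) ih
    have h2 := hmono _ _ hdeg (h1 m)
    rw [← MvPolynomial.smul_eq_C_mul]
    exact Submodule.smul_mem _ _ h2
  · induction n with
    | zero =>
      rw [pow_zero, Submodule.one_eq_span, Submodule.span_le]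
      rintro g rfl
      simp [mem_restrictTotalDegree]
    | succ n ih =>
      rw [pow_succ, Submodule.mul_le]
      intro a ha x hx
      have ha' := ih ha
      rw [mem_restrictTotalDegree] at ha' ⊢
      refine (totalDegree_mul _ _).trans ?_
      obtain ⟨⟨b, d, rfl⟩, -⟩ := mem_W.1 hx
      have : (aff b d).totalDegree ≤ 1 := by
        unfold aff
        refine (totalDegree_add _ _).trans (max_le ?_ (by simp))
        refine (totalDegree_finsetSum _ _).trans (Finset.sup_le ?_)
        intro i _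
        refine (totalDegree_mul _ _).trans ?_
        simp
      omega

theorem cofactorSpace_eq {U : Type} (q : U → Fin 3 → ℝ) (n : ℕ) (ψ : Finset U) :
    cofactorSpace q n ψ = (W q ψ) ^ n := by
  unfold cofactorSpace
  split_ifs with h
  · rw [Finset.card_eq_zero] at h
    subst h
    exact restrict_eq q n
  · exact span_pow_eq (W q ψ) n

/-! ### The operator `D` -/

/-- The derivation `∑ (w i - x i) ∂ i`. -/
noncomputable def der (w : Fin 3 → ℝ) : Derivation ℝ P P :=
  MvPolynomial.mkDerivation ℝ (fun i => C (w i) - X i)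

/-- The operator `n + ∑ (w i - x i) ∂ i`. -/
noncomputable def D (w : Fin 3 → ℝ) (n : ℕ) : P →ₗ[ℝ] P :=
  (n : ℝ) • LinearMap.id + (der w).toLinearMap

theorem D_apply (w : Fin 3 → ℝ) (n : ℕ) (f : P) : D w n f = (n : ℝ) • f + der w f := rfl

theorem D_mul (w : Fin 3 → ℝ) (a b : ℕ) (f g : P) :
    D w (a + b) (f * g) = D w a f * g + f * D w b g := by
  rw [D_apply, D_apply, D_apply, Derivation.leibniz]
  simp only [MvPolynomial.smul_eq_C_mul, smul_eq_mul, Nat.cast_add, C_add]
  ring

theorem D_aff (w : Fin 3 → ℝ) (a : Fin 3 → ℝ) (d : ℝ) :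
    D w 1 (aff a d) = C (eval w (aff a d)) := by
  rw [D_apply, eval_aff]
  have h1 : der w (aff a d) = ∑ i, C (a i) * (C (w i) - X i) := by
    unfold aff der
    rw [map_add, map_sum]
    simp [MvPolynomial.mkDerivation_X, Derivation.leibniz]
  rw [h1, aff]
  simp only [Nat.cast_one, one_smul, C_add, map_sum, C_mul, mul_sub, Finset.sum_sub_distrib]
  ring

theorem D_zero_one (w : Fin 3 → ℝ) (r : ℝ) : D w 0 (C r) = 0 := by
  rw [D_apply]
  simp [der]

/-- `D` kills the products of forms that vanish at `w`. -/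
theorem D_pow_zero (w : Fin 3 → ℝ) (W₀ : Submodule ℝ P)
    (h : ∀ f ∈ W₀, (∃ a d, f = aff a d) ∧ eval w f = 0) (n : ℕ) :
    ∀ f ∈ W₀ ^ n, D w n f = 0 := by
  induction n with
  | zero =>
    intro f hf
    rw [pow_zero, Submodule.mem_one] at hf
    obtain ⟨r, rfl⟩ := hf
    exact D_zero_one w r
  | succ n ih =>
    intro f hf
    rw [pow_succ] at hf
    induction hf using Submodule.mul_induction_on' with
    | mem_mul_mem a ha b hb =>
      obtain ⟨⟨c, d, rfl⟩, h2⟩ := h b hb
      rw [D_mul, ih a ha, D_aff, h2]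
      simp
    | add a _ b _ iha ihb => rw [map_add, iha, ihb, add_zero]

/-- Decomposition along a form `l`. -/
theorem exists_dec (V₀ V : Submodule ℝ P) (l : P) (h : ∀ f ∈ V, ∃ c : ℝ, f - c • l ∈ V₀)
    (n : ℕ) : ∀ f ∈ V ^ n, ∃ g : ℕ → P, (∀ j ≤ n, g j ∈ V₀ ^ (n - j)) ∧
      f = ∑ j ∈ range (n + 1), l ^ j * g j := by
  induction n with
  | zero =>
    intro f hf
    refine ⟨fun _ => f, ?_, by simp⟩
    intro j hj
    obtain rfl : j = 0 := by omega
    rw [pow_zero] at hf
    simpa using hf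
  | succ n ih =>
    intro f hf
    rw [pow_succ] at hf
    induction hf using Submodule.mul_induction_on' with
    | mem_mul_mem a ha b hb =>
      obtain ⟨g, hg, rfl⟩ := ih a ha
      obtain ⟨c, hc⟩ := h b hb
      refine ⟨fun j => (if j ≤ n then g j * (b - c • l) else 0) +
        (if j = 0 then 0 else c • g (j - 1)), ?_, ?_⟩
      · intro j hj
        apply Submodule.add_mem
        · split_ifs with h1
          · have h2 : n + 1 - j = (n - j) + 1 := by omega
            rw [h2, pow_succ]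
            exact Submodule.mul_mem_mul (hg j h1) hc
          · exact Submodule.zero_mem _
        · split_ifs with h1
          · exact Submodule.zero_mem _
          · have h2 : n + 1 - j = n - (j - 1) := by omega
            rw [h2]
            exact Submodule.smul_mem _ _ (hg _ (by omega))
      · have hb' : b = (b - c • l) + c • l := by ring
        rw [show (∑ j ∈ range (n + 1), l ^ j * g j) * b =
          (∑ j ∈ range (n + 1), l ^ j * g j) * (b - c • l) +
            (∑ j ∈ range (n + 1), l ^ j * g j) * (c • l) by rw [← mul_add, ← hb']]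
        simp only [mul_add, Finset.sum_add_distrib]
        congr 1
        · rw [Finset.sum_range_succ _ (n + 1), if_neg (by omega), mul_zero, add_zero,
            Finset.sum_mul]
          apply Finset.sum_congr rfl
          intro j hj
          rw [if_pos (by have := Finset.mem_range.1 hj; omega), mul_assoc]
        · rw [Finset.sum_range_succ' _ (n + 1), if_pos rfl, mul_zero, add_zero, Finset.sum_mul]
          apply Finset.sum_congr rfl
          intro j _
          rw [if_neg (by omega), Nat.add_sub_cancel, pow_succ, MvPolynomial.smul_eq_C_mul,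
            MvPolynomial.smul_eq_C_mul]
          ring
    | add a _ b _ iha ihb =>
      obtain ⟨g, hg, rfl⟩ := iha
      obtain ⟨g', hg', rfl⟩ := ihb
      refine ⟨fun j => g j + g' j, fun j hj => Submodule.add_mem _ (hg j hj) (hg' j hj), ?_⟩
      simp only [mul_add, Finset.sum_add_distrib]

/-- The operator `D` on a decomposition. -/
theorem D_dec (w : Fin 3 → ℝ) (V₀ : Submodule ℝ P) (l : P)
    (h : ∀ f ∈ V₀, (∃ a d, f = aff a d) ∧ eval w f = 0) (hl : ∃ a d, l = aff a d)
    (hl1 : eval w l = 1) (n : ℕ) (g : ℕ → P) (hg : ∀ j ≤ n, g j ∈ V₀ ^ (n - j)) :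
    D w n (∑ j ∈ range (n + 1), l ^ j * g j) =
      ∑ j ∈ range n, l ^ j * (((j + 1 : ℕ) : ℝ) • g (j + 1)) := by
  have hpow : ∀ j : ℕ, D w j (l ^ j) = (j : ℝ) • l ^ (j - 1) := by
    intro j
    induction j with
    | zero => simpa using D_zero_one w 1
    | succ j ih =>
      obtain ⟨a, d, rfl⟩ := hl
      rw [pow_succ, D_mul, ih, D_aff, hl1, C_1, mul_one]
      rcases Nat.eq_zero_or_pos j with rfl | hj
      · simp
      · rw [smul_mul_assoc, ← pow_succ, Nat.sub_add_cancel hj, Nat.add_sub_cancel]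
        push_cast
        rw [add_smul, one_smul]
  rw [map_sum, Finset.sum_range_succ']
  have h0 : D w n (l ^ 0 * g 0) = 0 := by
    rw [pow_zero, one_mul]
    exact D_pow_zero w V₀ h n _ (by simpa using hg 0 (by omega))
  rw [h0, add_zero]
  apply Finset.sum_congr rfl
  intro j hj
  have hj' := Finset.mem_range.1 hj
  have h1 : n = (j + 1) + (n - (j + 1)) := by omega
  have h2 : D w n (l ^ (j + 1) * g (j + 1)) =
      D w ((j + 1) + (n - (j + 1))) (l ^ (j + 1) * g (j + 1)) := by rw [← h1]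
  rw [h2, D_mul, hpow, D_pow_zero w V₀ h _ _ (hg (j + 1) (by omega)), mul_zero, add_zero,
    Nat.add_sub_cancel, smul_mul_assoc, mul_smul_comm]

/-- Independence of the powers of `l`. -/
theorem dec_unique (w : Fin 3 → ℝ) (V₀ : Submodule ℝ P) (l : P)
    (h : ∀ f ∈ V₀, (∃ a d, f = aff a d) ∧ eval w f = 0) (hl : ∃ a d, l = aff a d)
    (hl1 : eval w l = 1) (n : ℕ) : ∀ (g : ℕ → P), (∀ j ≤ n, g j ∈ V₀ ^ (n - j)) →
      ∑ j ∈ range (n + 1), l ^ j * g j = 0 → ∀ j ≤ n, g j = 0 := by
  induction n with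
  | zero =>
    intro g _ hs j hj
    obtain rfl : j = 0 := by omega
    simpa using hs
  | succ n ih =>
    intro g hg hs
    have h1 := D_dec w V₀ l h hl hl1 (n + 1) g hg
    rw [hs, map_zero] at h1
    have h2 := ih (fun j => ((j + 1 : ℕ) : ℝ) • g (j + 1)) (by
      intro j hj
      have := hg (j + 1) (by omega)
      rw [show n + 1 - (j + 1) = n - j by omega] at this
      exact Submodule.smul_mem _ _ this) h1.symm
    have h3 : ∀ j ≤ n, g (j + 1) = 0 := by
      intro j hj
      have := h2 j hj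
      rcases smul_eq_zero.1 this with h4 | h4
      · exact absurd h4 (by positivity)
      · exact h4
    intro j hj
    rcases Nat.eq_zero_or_pos j with rfl | hj0
    · rw [Finset.sum_range_succ', Finset.sum_eq_zero (by
        intro j hj
        rw [h3 j (by have := Finset.mem_range.1 hj; omega), mul_zero])] at hs
      simpa using hs
    · have := h3 (j - 1) (by omega)
      rwa [Nat.sub_add_cancel hj0] at this

/-- The kernel of `D` on `V ^ n`. -/
theorem D_ker (w : Fin 3 → ℝ) (V₀ V : Submodule ℝ P) (l : P)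
    (h : ∀ f ∈ V₀, (∃ a d, f = aff a d) ∧ eval w f = 0) (hl : ∃ a d, l = aff a d)
    (hl1 : eval w l = 1) (hV : ∀ f ∈ V, ∃ c : ℝ, f - c • l ∈ V₀) (n : ℕ) (f : P)
    (hf : f ∈ V ^ n) (hD : D w n f = 0) : f ∈ V₀ ^ n := by
  obtain ⟨g, hg, rfl⟩ := exists_dec V₀ V l hV n f hf
  have h0 : ∀ j, j < n → g (j + 1) = 0 := by
    rcases Nat.eq_zero_or_pos n with rfl | hn
    · intro j hj; omega
    · obtain ⟨m, rfl⟩ := Nat.exists_eq_succ_of_ne_zero hn.ne'
      rw [D_dec w V₀ l h hl hl1 _ g hg] at hD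
      have h2 := dec_unique w V₀ l h hl hl1 m (fun j => ((j + 1 : ℕ) : ℝ) • g (j + 1)) (by
        intro j hj
        have := hg (j + 1) (by omega)
        rw [show m + 1 - (j + 1) = m - j by omega] at this
        exact Submodule.smul_mem _ _ this) hD
      intro j hj
      rcases smul_eq_zero.1 (h2 j (by omega)) with h4 | h4
      · exact absurd h4 (by positivity)
      · exact h4
  rw [Finset.sum_range_succ', Finset.sum_eq_zero (by
    intro j hj
    rw [h0 j (Finset.mem_range.1 hj), mul_zero]), zero_add, pow_zero, one_mul]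
  simpa using hg 0 (by omega)

/-- Surjectivity of `D`. -/
theorem D_surj (w : Fin 3 → ℝ) (V₀ V : Submodule ℝ P) (l : P) (hVV : V₀ ≤ V) (hlV : l ∈ V)
    (h : ∀ f ∈ V₀, (∃ a d, f = aff a d) ∧ eval w f = 0) (hl : ∃ a d, l = aff a d)
    (hl1 : eval w l = 1) (hV : ∀ f ∈ V, ∃ c : ℝ, f - c • l ∈ V₀) (n : ℕ) (f : P)
    (hf : f ∈ V ^ n) : ∃ F ∈ V ^ (n + 1), D w (n + 1) F = f := by
  obtain ⟨g, hg, rfl⟩ := exists_dec V₀ V l hV n f hf
  let G : ℕ → P := fun j => if j = 0 then 0 else (j : ℝ)⁻¹ • g (j - 1)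
  have hG : ∀ j ≤ n + 1, G j ∈ V₀ ^ (n + 1 - j) := by
    intro j hj
    simp only [G]
    split_ifs with h1
    · exact Submodule.zero_mem _
    · have := hg (j - 1) (by omega)
      rw [show n - (j - 1) = n + 1 - j by omega] at this
      exact Submodule.smul_mem _ _ this
  refine ⟨∑ j ∈ range (n + 1 + 1), l ^ j * G j, ?_, ?_⟩
  · apply Submodule.sum_mem
    intro j hj
    have hj' := Finset.mem_range.1 hj
    have h1 : n + 1 = j + (n + 1 - j) := by omega
    rw [h1, pow_add]
    exact Submodule.mul_mem_mul (Submodule.pow_mem_pow _ hlV j)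
      (pow_le_pow_left' hVV _ (hG j (by omega)))
  · rw [D_dec w V₀ l h hl hl1 _ G hG]
    apply Finset.sum_congr rfl
    intro j _
    simp only [G, Nat.add_sub_cancel, if_neg (Nat.succ_ne_zero j)]
    rw [smul_smul, mul_inv_cancel₀ (by positivity), one_smul]

/-- `D` maps `V ^ (n + 1)` to `V ^ n`. -/
theorem D_mem (w : Fin 3 → ℝ) (V : Submodule ℝ P) (h : ∀ f ∈ V, ∃ a d, f = aff a d)
    (n : ℕ) (f : P) (hf : f ∈ V ^ (n + 1)) : D w (n + 1) f ∈ V ^ n := by
  rw [← span_pow_eq] at hf
  induction hf using Submodule.span_induction with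
  | mem g hg =>
    obtain ⟨f, hf, rfl⟩ := hg
    obtain ⟨a, d, rfl⟩ := h f hf
    have hpow : ∀ j : ℕ, D w (j + 1) (aff a d ^ (j + 1)) =
        (((j + 1 : ℕ) : ℝ) * eval w (aff a d)) • aff a d ^ j := by
      intro j
      induction j with
      | zero => simp [D_aff, MvPolynomial.smul_eq_C_mul]
      | succ j ih =>
        rw [pow_succ, D_mul, ih, D_aff, smul_mul_assoc, ← pow_succ, MvPolynomial.smul_eq_C_mul,
          MvPolynomial.smul_eq_C_mul]
        push_cast
        simp only [C_mul, C_add, C_1]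
        ring
    rw [hpow]
    exact Submodule.smul_mem _ _ (Submodule.pow_mem_pow _ hf n)
  | zero => simp
  | add g h _ _ ihg ihh => rw [map_add]; exact Submodule.add_mem _ ihg ihh
  | smul r g _ ihg => rw [map_smul]; exact Submodule.smul_mem _ _ ihg

/-! ### The boundary operator -/

section Boundary

variable {U : Type} [Fintype U] [LinearOrder U]

theorem boundary_apply (c : Finset U → P) (θ : Finset U) :
    boundary U c θ = ∑ u, if u ∈ θ then 0 else
      (-1 : ℝ) ^ (θ.filter (fun x => x < u)).card • c (insert u θ) := by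
  change ∑ u ∈ θᶜ, (-1 : ℝ) ^ (θ.filter (fun x => x < u)).card • c (insert u θ) = _
  rw [← Finset.sum_filter_add_sum_filter_not univ (fun u => u ∈ θ)]
  rw [Finset.sum_eq_zero (s := univ.filter (fun u => u ∈ θ)) (by
    intro u hu
    rw [if_pos (Finset.mem_filter.1 hu).2]), zero_add]
  apply Finset.sum_congr
  · ext u
    simp
  · intro u hu
    rw [if_neg (Finset.mem_filter.1 hu).2]

omit [Fintype U] in
theorem card_filter_insert {θ : Finset U} {u v : U} (hu : u ∉ θ) :
    ((insert u θ).filter (fun x => x < v)).card =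
      (θ.filter (fun x => x < v)).card + if u < v then 1 else 0 := by
  rw [Finset.filter_insert]
  split_ifs with h
  · rw [Finset.card_insert_of_notMem]
    intro h'
    exact hu (Finset.mem_filter.1 h').1
  · rfl

theorem boundary_boundary (c : Finset U → P) : boundary U (boundary U c) = 0 := by
  funext θ
  rw [boundary_apply]
  let F : U → U → P := fun u v => if u ∉ θ ∧ v ∉ θ ∧ u ≠ v then
    ((-1 : ℝ) ^ (θ.filter (fun x => x < u)).card *
      (-1 : ℝ) ^ ((θ.filter (fun x => x < v)).card + if u < v then 1 else 0)) •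
        c (insert v (insert u θ)) else 0
  have h1 : ∀ u, (if u ∈ θ then 0 else
      (-1 : ℝ) ^ (θ.filter (fun x => x < u)).card • boundary U c (insert u θ)) = ∑ v, F u v := by
    intro u
    split_ifs with hu
    · symm
      apply Finset.sum_eq_zero
      intro v _
      simp only [F]
      rw [if_neg]
      rintro ⟨h, -⟩
      exact h hu
    · rw [boundary_apply, Finset.smul_sum]
      apply Finset.sum_congr rfl
      intro v _
      simp only [F]
      by_cases hv : v ∈ insert u θ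
      · rw [if_pos hv, smul_zero, if_neg]
        rintro ⟨-, h2, h3⟩
        rcases Finset.mem_insert.1 hv with h | h
        · exact h3 h.symm
        · exact h2 h
      · rw [if_neg hv, if_pos, smul_smul, card_filter_insert hu]
        rw [Finset.mem_insert, not_or] at hv
        exact ⟨hu, hv.2, Ne.symm hv.1⟩
  simp only [h1]
  have h2 : ∀ u v, F v u = - F u v := by
    intro u v
    simp only [F]
    by_cases h : u ∉ θ ∧ v ∉ θ ∧ u ≠ v
    · rw [if_pos h, if_pos ⟨h.2.1, h.1, h.2.2.symm⟩, Finset.insert_comm, ← neg_smul]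
      congr 1
      rcases lt_or_gt_of_ne h.2.2 with h3 | h3
      · rw [if_pos h3, if_neg h3.not_gt, add_zero, pow_succ]
        ring
      · rw [if_pos h3, if_neg h3.not_gt, add_zero, pow_succ]
        ring
    · rw [if_neg h, if_neg, neg_zero]
      rintro ⟨h3, h4, h5⟩
      exact h ⟨h4, h3, h5.symm⟩
  have h3 : ∑ u, ∑ v, F u v = - ∑ u, ∑ v, F u v := by
    calc ∑ u, ∑ v, F u v = ∑ v, ∑ u, F u v := Finset.sum_comm
      _ = ∑ u, ∑ v, F v u := rfl
      _ = ∑ u, ∑ v, - F u v :=
        Finset.sum_congr rfl fun u _ => Finset.sum_congr rfl fun v _ => h2 u v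
      _ = - ∑ u, ∑ v, F u v := by
        simp only [Finset.sum_neg_distrib]
  have h4 : (2 : ℝ) • ∑ u, ∑ v, F u v = 0 := by
    rw [two_smul]
    nth_rewrite 1 [h3]
    exact neg_add_cancel _
  rcases smul_eq_zero.1 h4 with h5 | h5
  · norm_num at h5
  · exact h5

omit [Fintype U] [LinearOrder U] in
theorem cofactorSpace_mono (q : U → Fin 3 → ℝ) (s : ℕ) {θ ψ : Finset U} (h : θ ⊆ ψ) :
    cofactorSpace q s ψ ≤ cofactorSpace q s θ := by
  rw [cofactorSpace_eq, cofactorSpace_eq]
  apply pow_le_pow_left'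
  intro f hf
  exact ⟨hf.1, fun u hu => hf.2 u (h hu)⟩

theorem boundary_mem {Γ : Set (Finset U)} (hΓ : ∀ ψ ∈ Γ, ∀ θ ⊆ ψ, θ ∈ Γ) {q : U → Fin 3 → ℝ}
    {s k : ℕ} {c : Finset U → P} (hc : c ∈ chains Γ q s (k + 1)) :
    boundary U c ∈ chains Γ q s k := by
  intro θ
  constructor
  · rintro ⟨h1, h2⟩
    rw [boundary_apply]
    apply Submodule.sum_mem
    intro u _
    split_ifs with hu
    · exact Submodule.zero_mem _
    · apply Submodule.smul_mem
      by_cases h3 : insert u θ ∈ Γ ∧ (insert u θ).card = k + 1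
      · exact cofactorSpace_mono q s (Finset.subset_insert _ _) ((hc _).1 h3)
      · rw [(hc _).2 h3]
        exact Submodule.zero_mem _
  · intro h
    rw [boundary_apply]
    apply Finset.sum_eq_zero
    intro u _
    split_ifs with hu
    · rfl
    · rw [(hc _).2, smul_zero]
      rintro ⟨h1, h2⟩
      apply h
      refine ⟨hΓ _ h1 _ (Finset.subset_insert _ _), ?_⟩
      rw [Finset.card_insert_of_notMem hu] at h2
      omega

theorem boundary_zero {Γ : Set (Finset U)} {q : U → Fin 3 → ℝ}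
    {s : ℕ} {c : Finset U → P} (hc : c ∈ chains Γ q s 0) : boundary U c = 0 := by
  funext θ
  rw [boundary_apply]
  apply Finset.sum_eq_zero
  intro u _
  split_ifs with hu
  · rfl
  · rw [(hc _).2, smul_zero]
    rintro ⟨-, h2⟩
    rw [Finset.card_insert_of_notMem hu] at h2
    omega

end Boundary

/-! ### Sets of vertices of the cone -/

section ConeSets

variable {V : Type}

theorem coe_mem_up {ψ : Finset V} {v : V} : (v : WithBot V) ∈ up ψ ↔ v ∈ ψ := by
  unfold up
  rw [Finset.mem_map]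
  constructor
  · rintro ⟨x, hx, h⟩
    have : x = v := WithBot.coe_injective h
    exact this ▸ hx
  · intro h
    exact ⟨v, h, rfl⟩

theorem bot_notMem_up {ψ : Finset V} : (⊥ : WithBot V) ∉ up ψ := by
  unfold up
  rw [Finset.mem_map]
  rintro ⟨x, -, h⟩
  exact WithBot.coe_ne_bot h

theorem card_up (ψ : Finset V) : (up ψ).card = ψ.card := Finset.card_map _

theorem up_injective : Function.Injective (up : Finset V → Finset (WithBot V)) := by
  intro a b h
  ext v
  rw [← coe_mem_up, h, coe_mem_up]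

variable [LinearOrder V]

theorem up_insert (v : V) (ψ : Finset V) : up (insert v ψ) = insert (v : WithBot V) (up ψ) := by
  unfold up
  rw [Finset.map_insert]
  rfl

theorem card_insert_bot (ψ : Finset V) : (insert (⊥ : WithBot V) (up ψ)).card = ψ.card + 1 := by
  rw [Finset.card_insert_of_notMem bot_notMem_up, card_up]

theorem up_ne_insert (a b : Finset V) : up a ≠ insert (⊥ : WithBot V) (up b) := by
  intro h
  exact bot_notMem_up (h ▸ Finset.mem_insert_self _ _ : (⊥ : WithBot V) ∈ up a)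

theorem insert_bot_injective {a b : Finset V}
    (h : insert (⊥ : WithBot V) (up a) = insert (⊥ : WithBot V) (up b)) : a = b := by
  apply up_injective
  rw [← Finset.erase_insert (bot_notMem_up (ψ := a)), h, Finset.erase_insert bot_notMem_up]

theorem up_mem_cone {Δ : Set (Finset V)} (h3 : ∀ ψ ∈ Δ, ψ.card ≤ 3) {τ : Finset V} :
    up τ ∈ truncatedCone Δ ↔ τ ∈ Δ := by
  constructor
  · rintro ⟨-, ρ, hρ, h | h⟩
    · rwa [up_injective h]
    · exact absurd h (up_ne_insert _ _)
  · intro h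
    exact ⟨by rw [card_up]; exact h3 τ h, τ, h, Or.inl rfl⟩

theorem insert_mem_cone {Δ : Set (Finset V)} {τ : Finset V} :
    insert (⊥ : WithBot V) (up τ) ∈ truncatedCone Δ ↔ τ ∈ Δ ∧ τ.card ≤ 2 := by
  constructor
  · rintro ⟨h1, ρ, hρ, h | h⟩
    · exact absurd h.symm (up_ne_insert _ _)
    · rw [card_insert_bot] at h1
      rw [insert_bot_injective h] at h1 ⊢
      exact ⟨hρ, by omega⟩
  · rintro ⟨h1, h2⟩
    exact ⟨by rw [card_insert_bot]; omega, τ, h1, Or.inr rfl⟩

variable [Fintype V]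

/-- The vertices of `V` in a set of vertices of the cone. -/
def down (ψ : Finset (WithBot V)) : Finset V := univ.filter (fun v => (v : WithBot V) ∈ ψ)

theorem mem_down {ψ : Finset (WithBot V)} {v : V} : v ∈ down ψ ↔ (v : WithBot V) ∈ ψ := by
  simp [down]

theorem down_up (ψ : Finset V) : down (up ψ) = ψ := by
  ext v
  rw [mem_down, coe_mem_up]

theorem down_insert (ψ : Finset V) : down (insert (⊥ : WithBot V) (up ψ)) = ψ := by
  ext v
  rw [mem_down, Finset.mem_insert, coe_mem_up]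
  constructor
  · rintro (h | h)
    · exact absurd h WithBot.coe_ne_bot
    · exact h
  · exact Or.inr

theorem eq_up_or (ψ : Finset (WithBot V)) :
    (⊥ ∉ ψ ∧ ψ = up (down ψ)) ∨ (⊥ ∈ ψ ∧ ψ = insert ⊥ (up (down ψ))) := by
  by_cases h : ⊥ ∈ ψ
  · right
    refine ⟨h, ?_⟩
    ext x
    induction x using WithBot.recBotCoe with
    | bot => simp [h]
    | coe v =>
      rw [Finset.mem_insert, coe_mem_up, mem_down]
      simp
  · left
    refine ⟨h, ?_⟩
    ext x
    induction x using WithBot.recBotCoe with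
    | bot => simp [h, bot_notMem_up]
    | coe v => rw [coe_mem_up, mem_down]

theorem ext_cone {f g : Finset (WithBot V) → P} (h1 : ∀ τ : Finset V, f (up τ) = g (up τ))
    (h2 : ∀ τ : Finset V, f (insert ⊥ (up τ)) = g (insert ⊥ (up τ))) : f = g := by
  funext ψ
  rcases eq_up_or ψ with ⟨-, h⟩ | ⟨-, h⟩
  · rw [h]; exact h1 _
  · rw [h]; exact h2 _

/-- Functions on the sets of vertices of the cone from two functions. -/
noncomputable def mk (a b : Finset V → P) : Finset (WithBot V) → P :=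
  fun ψ => if ⊥ ∈ ψ then b (down ψ) else a (down ψ)

theorem mk_up (a b : Finset V → P) (τ : Finset V) : mk a b (up τ) = a τ := by
  unfold mk
  rw [if_neg bot_notMem_up, down_up]

theorem mk_insert (a b : Finset V → P) (τ : Finset V) : mk a b (insert ⊥ (up τ)) = b τ := by
  unfold mk
  rw [if_pos (Finset.mem_insert_self _ _), down_insert]

omit [LinearOrder V] in
theorem sum_withBot (f : WithBot V → P) : ∑ u, f u = f ⊥ + ∑ v : V, f (v : WithBot V) :=
  Fintype.sum_option f

theorem boundary_up (c : Finset (WithBot V) → P) (θ : Finset V) :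
    boundary (WithBot V) c (up θ) =
      boundary V (fun τ => c (up τ)) θ + c (insert ⊥ (up θ)) := by
  rw [boundary_apply, sum_withBot, if_neg bot_notMem_up, boundary_apply, add_comm]
  congr 1
  · apply Finset.sum_congr rfl
    intro v _
    by_cases hv : v ∈ θ
    · rw [if_pos hv, if_pos (coe_mem_up.2 hv)]
    · rw [if_neg hv, if_neg (fun h => hv (coe_mem_up.1 h)), up_insert]
      congr 2
      have : (up θ).filter (fun x => x < (v : WithBot V)) = up (θ.filter (fun x => x < v)) := by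
        ext x
        induction x using WithBot.recBotCoe with
        | bot => simp [bot_notMem_up]
        | coe w =>
          rw [Finset.mem_filter, coe_mem_up, coe_mem_up, Finset.mem_filter, WithBot.coe_lt_coe]
      rw [this, card_up]
  · have : (up θ).filter (fun x => x < (⊥ : WithBot V)) = ∅ := by
      ext x
      simp
    rw [this, Finset.card_empty, pow_zero, one_smul]

theorem boundary_insert (c : Finset (WithBot V) → P) (θ : Finset V) :
    boundary (WithBot V) c (insert ⊥ (up θ)) =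
      - boundary V (fun τ => c (insert ⊥ (up τ))) θ := by
  rw [boundary_apply, sum_withBot, if_pos (Finset.mem_insert_self _ _), zero_add, boundary_apply,
    ← Finset.sum_neg_distrib]
  apply Finset.sum_congr rfl
  intro v _
  by_cases hv : v ∈ θ
  · rw [if_pos hv, if_pos (Finset.mem_insert_of_mem (coe_mem_up.2 hv)), neg_zero]
  · have hv' : (v : WithBot V) ∉ insert ⊥ (up θ) := by
      rw [Finset.mem_insert, coe_mem_up]
      rintro (h | h)
      · exact WithBot.coe_ne_bot h
      · exact hv h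
    rw [if_neg hv, if_neg hv', Finset.insert_comm, ← up_insert]
    have : ((insert ⊥ (up θ)).filter (fun x => x < (v : WithBot V))).card =
        (θ.filter (fun x => x < v)).card + 1 := by
      rw [card_filter_insert bot_notMem_up, if_pos (WithBot.bot_lt_coe v)]
      congr 1
      rw [← card_up (θ.filter (fun x => x < v))]
      congr 1
      ext x
      induction x using WithBot.recBotCoe with
      | bot => simp [bot_notMem_up]
      | coe w =>
        rw [Finset.mem_filter, coe_mem_up, coe_mem_up, Finset.mem_filter, WithBot.coe_lt_coe]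
    rw [this, pow_succ]
    simp

end ConeSets

/-! ### Linear algebra at a face -/

section Face

variable {V : Type} (p : V → Fin 3 → ℝ) (pw : Fin 3 → ℝ)

/-- The forms vanishing on `ψ` and at `pw`. -/
noncomputable def W₀ (ψ : Finset V) : Submodule ℝ P where
  carrier := {f | f ∈ W p ψ ∧ eval pw f = 0}
  add_mem' := by
    rintro f g ⟨h1, h2⟩ ⟨h3, h4⟩
    exact ⟨Submodule.add_mem _ h1 h3, by rw [map_add, h2, h4, add_zero]⟩
  zero_mem' := ⟨Submodule.zero_mem _, map_zero _⟩
  smul_mem' := by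
    rintro r f ⟨h1, h2⟩
    exact ⟨Submodule.smul_mem _ _ h1, by rw [MvPolynomial.smul_eval, h2, mul_zero]⟩

theorem mem_W₀ {ψ : Finset V} {f : P} : f ∈ W₀ p pw ψ ↔ f ∈ W p ψ ∧ eval pw f = 0 := Iff.rfl

theorem W_up (ψ : Finset V) : W (coneConfig pw p) (up ψ) = W p ψ := by
  ext f
  rw [mem_W, mem_W]
  apply and_congr Iff.rfl
  constructor
  · intro h v hv
    exact h v (coe_mem_up.2 hv)
  · intro h u hu
    induction u using WithBot.recBotCoe with
    | bot => exact absurd hu bot_notMem_up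
    | coe v => exact h v (coe_mem_up.1 hu)

theorem W_insert [LinearOrder V] (ψ : Finset V) :
    W (coneConfig pw p) (insert ⊥ (up ψ)) = W₀ p pw ψ := by
  ext f
  rw [mem_W₀, mem_W, mem_W]
  constructor
  · rintro ⟨h1, h2⟩
    refine ⟨⟨h1, fun v hv => h2 v (Finset.mem_insert_of_mem (coe_mem_up.2 hv))⟩, ?_⟩
    exact h2 ⊥ (Finset.mem_insert_self _ _)
  · rintro ⟨⟨h1, h2⟩, h3⟩
    refine ⟨h1, fun u hu => ?_⟩
    induction u using WithBot.recBotCoe with
    | bot => exact h3
    | coe v =>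
      rcases Finset.mem_insert.1 hu with h | h
      · exact absurd h WithBot.coe_ne_bot
      · exact h2 v (coe_mem_up.1 h)

theorem cof_up (s : ℕ) (ψ : Finset V) :
    cofactorSpace (coneConfig pw p) s (up ψ) = (W p ψ) ^ s := by
  rw [cofactorSpace_eq, W_up]

theorem cof_insert [LinearOrder V] (s : ℕ) (ψ : Finset V) :
    cofactorSpace (coneConfig pw p) s (insert ⊥ (up ψ)) = (W₀ p pw ψ) ^ s := by
  rw [cofactorSpace_eq, W_insert]

theorem W₀_mono {θ ψ : Finset V} (h : θ ⊆ ψ) : W₀ p pw ψ ≤ W₀ p pw θ := by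
  intro f hf
  exact ⟨⟨hf.1.1, fun u hu => hf.1.2 u (h hu)⟩, hf.2⟩

/-- A linear functional as an affine form. -/
theorem aff_functional (φ : (Fin 3 → ℝ) →ₗ[ℝ] ℝ) (d : ℝ) (x : Fin 3 → ℝ) :
    eval x (aff (fun i => φ (Pi.single i 1)) d) = φ x + d := by
  rw [eval_aff]
  congr 1
  conv_rhs => rw [← Finset.univ_sum_single x, map_sum]
  apply Finset.sum_congr rfl
  intro i _
  have : (Pi.single i (x i) : Fin 3 → ℝ) = x i • Pi.single i 1 := by
    rw [← Pi.single_smul, smul_eq_mul, mul_one]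
  rw [this, map_smul, smul_eq_mul, mul_comm]

variable {p pw}

theorem notMem_vectorSpan {ψ : Finset V} {v₀ : V} (hv : v₀ ∈ ψ)
    (h : pw ∉ affineSpan ℝ (p '' (ψ : Set V))) :
    pw - p v₀ ∉ vectorSpan ℝ (p '' (ψ : Set V)) := by
  intro h'
  apply h
  rw [← direction_affineSpan] at h'
  have h1 : p v₀ ∈ affineSpan ℝ (p '' (ψ : Set V)) :=
    subset_affineSpan ℝ _ (Set.mem_image_of_mem _ (Finset.mem_coe.2 hv))
  have h2 := AffineSubspace.vadd_mem_of_mem_direction h' h1
  rwa [vadd_eq_add, sub_add_cancel] at h2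

theorem exists_l {ψ : Finset V} (h : pw ∉ affineSpan ℝ (p '' (ψ : Set V))) :
    ∃ l ∈ W p ψ, eval pw l = 1 := by
  rcases ψ.eq_empty_or_nonempty with rfl | ⟨v₀, hv₀⟩
  · exact ⟨1, ⟨⟨0, 1, by simp [aff]⟩, by simp⟩, by simp⟩
  · obtain ⟨φ, h1, h2⟩ := Submodule.exists_le_ker_of_notMem (notMem_vectorSpan hv₀ h)
    have hv : ∀ v ∈ ψ, φ (p v) = φ (p v₀) := by
      intro v hv
      have : p v - p v₀ ∈ vectorSpan ℝ (p '' (ψ : Set V)) :=
        vsub_mem_vectorSpan ℝ (Set.mem_image_of_mem _ (Finset.mem_coe.2 hv))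
          (Set.mem_image_of_mem _ (Finset.mem_coe.2 hv₀))
      have h3 := h2 this
      rw [LinearMap.mem_ker, map_sub, sub_eq_zero] at h3
      exact h3
    refine ⟨(φ (pw - p v₀))⁻¹ • aff (fun i => φ (Pi.single i 1)) (-φ (p v₀)),
      Submodule.smul_mem _ _ ⟨⟨_, _, rfl⟩, ?_⟩, ?_⟩
    · intro v hv'
      rw [aff_functional, hv v hv', add_neg_cancel]
    · rw [MvPolynomial.smul_eval, aff_functional, ← sub_eq_add_neg, ← map_sub]
      exact inv_mul_cancel₀ h1

theorem W₀_forms (ψ : Finset V) : ∀ f ∈ W₀ p pw ψ, (∃ a d, f = aff a d) ∧ eval pw f = 0 :=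
  fun _ hf => ⟨hf.1.1, hf.2⟩

theorem hV_of_l {ψ : Finset V} {l : P} (hl : l ∈ W p ψ) (hl1 : eval pw l = 1) :
    ∀ f ∈ W p ψ, ∃ c : ℝ, f - c • l ∈ W₀ p pw ψ := by
  intro f hf
  refine ⟨eval pw f, Submodule.sub_mem _ hf (Submodule.smul_mem _ _ hl), ?_⟩
  rw [map_sub, MvPolynomial.smul_eval, hl1, mul_one, sub_self]

theorem face_surj {ψ : Finset V} (h : pw ∉ affineSpan ℝ (p '' (ψ : Set V))) (s : ℕ) (f : P)
    (hf : f ∈ (W p ψ) ^ s) : ∃ F ∈ (W p ψ) ^ (s + 1), D pw (s + 1) F = f := by
  obtain ⟨l, hl, hl1⟩ := exists_l h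
  exact D_surj pw (W₀ p pw ψ) (W p ψ) l (fun _ h => h.1) hl (W₀_forms ψ) hl.1 hl1
    (hV_of_l hl hl1) s f hf

theorem face_ker {ψ : Finset V} (h : pw ∉ affineSpan ℝ (p '' (ψ : Set V))) (s : ℕ) (f : P)
    (hf : f ∈ (W p ψ) ^ (s + 1)) (hD : D pw (s + 1) f = 0) : f ∈ (W₀ p pw ψ) ^ (s + 1) := by
  obtain ⟨l, hl, hl1⟩ := exists_l h
  exact D_ker pw (W₀ p pw ψ) (W p ψ) l (W₀_forms ψ) hl.1 hl1 (hV_of_l hl hl1) (s + 1) f hf hD

theorem face_D_mem {ψ : Finset V} (s : ℕ) (f : P) (hf : f ∈ (W p ψ) ^ (s + 1)) :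
    D pw (s + 1) f ∈ (W p ψ) ^ s := D_mem pw (W p ψ) (fun _ h => h.1) s f hf

theorem face_D_zero {ψ : Finset V} (s : ℕ) (f : P) (hf : f ∈ (W₀ p pw ψ) ^ s) :
    D pw s f = 0 := D_pow_zero pw (W₀ p pw ψ) (W₀_forms ψ) s f hf

theorem affineSpan_ne_top [DecidableEq V] {ψ : Finset V} (h : ψ.card ≤ 3) :
    affineSpan ℝ (p '' (ψ : Set V)) ≠ ⊤ := by
  intro ht
  rcases ψ.eq_empty_or_nonempty with rfl | hne
  · simp only [Finset.coe_empty, Set.image_empty, AffineSubspace.span_empty] at ht
    exact AffineSubspace.bot_ne_top ℝ (Fin 3 → ℝ) (Fin 3 → ℝ) ht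
  · have hpos := Finset.card_pos.2 hne
    have h1 : ψ.card = (ψ.card - 1) + 1 := by omega
    have h2 := finrank_vectorSpan_image_finset_le ℝ p ψ h1
    have h3 : vectorSpan ℝ (p '' (ψ : Set V)) = ⊤ := by
      rw [← direction_affineSpan, ht, AffineSubspace.direction_top]
    rw [Finset.coe_image, h3, finrank_top] at h2
    simp only [Module.finrank_fintype_fun_eq_card, Fintype.card_fin] at h2
    omega

theorem range_sub (ψ : Finset V) : Set.range (fun v : ψ => p v) = p '' (ψ : Set V) := by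
  ext x
  simp

theorem W₀_eq_bot [DecidableEq V] {ψ : Finset V} (hc : ψ.card = 3)
    (h : pw ∉ affineSpan ℝ (p '' (ψ : Set V))) :
    W₀ p pw ψ = ⊥ ↔ AffineIndependent ℝ (fun v : ψ => p v) := by
  have hne : ψ.Nonempty := by rw [← Finset.card_pos]; omega
  obtain ⟨v₀, hv₀⟩ := hne
  have hx := notMem_vectorSpan hv₀ h
  constructor
  · intro hb
    by_contra hn
    have h1 : ¬ Module.finrank ℝ (vectorSpan ℝ (Set.range (fun v : ψ => p v))) = 2 := by
      intro h2
      exact hn ((affineIndependent_iff_finrank_vectorSpan_eq ℝ _ (by simp [hc])).2 h2)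
    have h2 : Module.finrank ℝ (vectorSpan ℝ (p '' (ψ : Set V))) ≤ 2 := by
      have := finrank_vectorSpan_image_finset_le ℝ p ψ (n := 2) (by omega)
      rwa [Finset.coe_image] at this
    rw [range_sub] at h1
    have h3 : Module.finrank ℝ ↥(vectorSpan ℝ (p '' (ψ : Set V)) ⊔
        Submodule.span ℝ {pw - p v₀}) ≤ 2 := by
      refine (Submodule.finrank_add_le_finrank_add_finrank _ _).trans ?_
      have h0 : pw - p v₀ ≠ 0 := by
        intro h0
        rw [h0] at hx
        exact hx (Submodule.zero_mem _)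
      have h01 := finrank_span_singleton (K := ℝ) h0
      have h02 := lt_of_le_of_ne h2 h1
      exact (add_le_add (Nat.lt_succ_iff.1 h02) h01.le).trans le_rfl
    have h4 : vectorSpan ℝ (p '' (ψ : Set V)) ⊔ Submodule.span ℝ {pw - p v₀} < ⊤ := by
      rw [lt_top_iff_ne_top]
      intro ht
      rw [ht, finrank_top] at h3
      simp at h3
    obtain ⟨φ, hφ, hker⟩ := Submodule.exists_le_ker_of_lt_top _ h4
    have hv : ∀ v ∈ ψ, φ (p v) = φ (p v₀) := by
      intro v hv
      have : p v - p v₀ ∈ vectorSpan ℝ (p '' (ψ : Set V)) :=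
        vsub_mem_vectorSpan ℝ (Set.mem_image_of_mem _ (Finset.mem_coe.2 hv))
          (Set.mem_image_of_mem _ (Finset.mem_coe.2 hv₀))
      have h3 := hker (Submodule.mem_sup_left this)
      rw [LinearMap.mem_ker, map_sub, sub_eq_zero] at h3
      exact h3
    have hw : φ pw = φ (p v₀) := by
      have h3 := hker (Submodule.mem_sup_right (Submodule.mem_span_singleton_self _))
      rw [LinearMap.mem_ker, map_sub, sub_eq_zero] at h3
      exact h3
    have hmem : aff (fun i => φ (Pi.single i 1)) (-φ (p v₀)) ∈ W₀ p pw ψ := by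
      refine ⟨⟨⟨_, _, rfl⟩, ?_⟩, ?_⟩
      · intro v hv'
        rw [aff_functional, hv v hv', add_neg_cancel]
      · rw [aff_functional, hw, add_neg_cancel]
    rw [hb, Submodule.mem_bot] at hmem
    apply hφ
    ext i
    have e1 := aff_functional φ (-φ (p v₀)) (Pi.single i 1)
    have e2 := aff_functional φ (-φ (p v₀)) 0
    rw [hmem, map_zero] at e1 e2
    rw [map_zero, zero_add] at e2
    rw [← e2, add_zero] at e1
    simp only [LinearMap.coe_comp, Function.comp_apply, LinearMap.coe_single,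
      LinearMap.zero_apply]
    exact e1.symm
  · intro hi
    rw [Submodule.eq_bot_iff]
    rintro f ⟨⟨⟨a, d, rfl⟩, hf⟩, hfw⟩
    have hfr : Module.finrank ℝ (vectorSpan ℝ (p '' (ψ : Set V))) = 2 := by
      rw [← range_sub]
      exact hi.finrank_vectorSpan (by simp [hc])
    let φ : (Fin 3 → ℝ) →ₗ[ℝ] ℝ := ∑ i, a i • LinearMap.proj i
    have hφ : ∀ x, φ x = ∑ i, a i * x i := by
      intro x
      simp [φ]
    have hev : ∀ x, eval x (aff a d) = φ x + d := by
      intro x
      rw [eval_aff, hφ]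
    have hsub : vectorSpan ℝ (p '' (ψ : Set V)) ≤ LinearMap.ker φ := by
      rw [vectorSpan_def, Submodule.span_le]
      rintro _ ⟨_, ⟨v, hv, rfl⟩, _, ⟨v', hv', rfl⟩, rfl⟩
      have h1 := hf v hv
      have h2 := hf v' hv'
      rw [hev] at h1 h2
      simp only [vsub_eq_sub, SetLike.mem_coe, LinearMap.mem_ker, map_sub]
      linarith
    have hw : pw - p v₀ ∈ LinearMap.ker φ := by
      have h1 := hf v₀ hv₀
      rw [hev] at h1 hfw
      rw [LinearMap.mem_ker, map_sub]
      linarith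
    have hφ0 : φ = 0 := by
      by_contra hne
      have h1 := Module.Dual.finrank_ker_add_one_of_ne_zero (K := ℝ) (f := φ) hne
      simp only [Module.finrank_fintype_fun_eq_card, Fintype.card_fin] at h1
      have h2 : vectorSpan ℝ (p '' (ψ : Set V)) = LinearMap.ker φ :=
        Submodule.eq_of_le_of_finrank_eq hsub (by omega)
      exact hx (h2 ▸ hw)
    have ha : a = 0 := by
      ext i
      have h1 : φ (Pi.single i 1) = 0 := by rw [hφ0]; rfl
      rw [hφ] at h1
      simpa [Pi.single_apply] using h1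
    have hd : d = 0 := by
      have h1 := hf v₀ hv₀
      rw [hev, hφ0] at h1
      simpa using h1
    rw [ha, hd, aff_zero]

end Face

/-! ### The complexes -/

section Main

variable {V : Type} [Fintype V] [LinearOrder V] {Δ : Set (Finset V)} {p : V → Fin 3 → ℝ}
  {pw : Fin 3 → ℝ} {s : ℕ}

theorem mem_chains_cone (h3 : ∀ ψ ∈ Δ, ψ.card ≤ 3) {n k : ℕ} {c : Finset (WithBot V) → P} :
    c ∈ chains (truncatedCone Δ) (coneConfig pw p) n k ↔
      (∀ τ : Finset V, (τ ∈ Δ ∧ τ.card = k → c (up τ) ∈ (W p τ) ^ n) ∧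
        (¬ (τ ∈ Δ ∧ τ.card = k) → c (up τ) = 0)) ∧
      (∀ τ : Finset V, ((τ ∈ Δ ∧ τ.card ≤ 2) ∧ τ.card + 1 = k →
          c (insert ⊥ (up τ)) ∈ (W₀ p pw τ) ^ n) ∧
        (¬ ((τ ∈ Δ ∧ τ.card ≤ 2) ∧ τ.card + 1 = k) → c (insert ⊥ (up τ)) = 0)) := by
  constructor
  · intro h
    refine ⟨fun τ => ?_, fun τ => ?_⟩
    · have := h (up τ)
      rw [up_mem_cone h3, card_up, cof_up] at this
      exact this
    · have := h (insert ⊥ (up τ))
      rw [insert_mem_cone, card_insert_bot, cof_insert] at this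
      exact this
  · rintro ⟨h1, h2⟩ ψ
    rcases eq_up_or ψ with ⟨-, h⟩ | ⟨-, h⟩
    · rw [h, up_mem_cone h3, card_up, cof_up]
      exact h1 _
    · rw [h, insert_mem_cone, card_insert_bot, cof_insert]
      exact h2 _

theorem mem_chains {n k : ℕ} {c : Finset V → P} :
    c ∈ chains Δ p n k ↔ ∀ τ : Finset V, (τ ∈ Δ ∧ τ.card = k → c τ ∈ (W p τ) ^ n) ∧
        (¬ (τ ∈ Δ ∧ τ.card = k) → c τ = 0) := by
  constructor
  · intro h τ
    have := h τ
    rw [cofactorSpace_eq] at this
    exact this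
  · intro h τ
    rw [cofactorSpace_eq]
    exact h τ

/-- The chain map from the complex of the cone. -/
noncomputable def Φ (pw : Fin 3 → ℝ) (s : ℕ) : (Finset (WithBot V) → P) →ₗ[ℝ] (Finset V → P) where
  toFun c := fun τ => D pw (s + 1) (c (up τ))
  map_add' a b := by
    funext τ
    simp
  map_smul' r a := by
    funext τ
    simp

theorem Φ_apply (c : Finset (WithBot V) → P) (τ : Finset V) :
    Φ pw s c τ = D pw (s + 1) (c (up τ)) := rfl

theorem Φ_mem (h3 : ∀ ψ ∈ Δ, ψ.card ≤ 3) {k : ℕ} {c : Finset (WithBot V) → P}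
    (hc : c ∈ chains (truncatedCone Δ) (coneConfig pw p) (s + 1) k) :
    Φ pw s c ∈ chains Δ p s k := by
  rw [mem_chains_cone h3] at hc
  rw [mem_chains]
  intro τ
  constructor
  · intro h
    exact face_D_mem s _ ((hc.1 τ).1 h)
  · intro h
    rw [Φ_apply, (hc.1 τ).2 h, map_zero]

theorem D_boundary (c : Finset V → P) (θ : Finset V) :
    D pw (s + 1) (boundary V c θ) = boundary V (fun τ => D pw (s + 1) (c τ)) θ := by
  rw [boundary_apply, boundary_apply, map_sum]
  apply Finset.sum_congr rfl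
  intro u _
  split_ifs
  · exact map_zero _
  · rw [map_smul]

theorem Φ_boundary (h3 : ∀ ψ ∈ Δ, ψ.card ≤ 3) {k : ℕ} {c : Finset (WithBot V) → P}
    (hc : c ∈ chains (truncatedCone Δ) (coneConfig pw p) (s + 1) k) :
    Φ pw s (boundary (WithBot V) c) = boundary V (Φ pw s c) := by
  rw [mem_chains_cone h3] at hc
  funext θ
  rw [Φ_apply, boundary_up, map_add, D_boundary]
  have : D pw (s + 1) (c (insert ⊥ (up θ))) = 0 := by
    by_cases h : (θ ∈ Δ ∧ θ.card ≤ 2) ∧ θ.card + 1 = k
    · exact face_D_zero (s + 1) _ ((hc.2 θ).1 h)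
    · rw [(hc.2 θ).2 h, map_zero]
  rw [this, add_zero]
  rfl

theorem notMem_face (h3 : ∀ ψ ∈ Δ, ψ.card ≤ 3) (hg : GeneralPosition p pw) {ψ : Finset V}
    (hψ : ψ ∈ Δ) : pw ∉ affineSpan ℝ (p '' (ψ : Set V)) :=
  hg _ (affineSpan_ne_top (h3 ψ hψ))

theorem Φ_lift (h3 : ∀ ψ ∈ Δ, ψ.card ≤ 3) (hg : GeneralPosition p pw) {k : ℕ}
    {c : Finset V → P} (hc : c ∈ chains Δ p s k) :
    ∃ c' ∈ chains (truncatedCone Δ) (coneConfig pw p) (s + 1) k, Φ pw s c' = c := by
  rw [mem_chains] at hc
  have h1 : ∀ τ : Finset V, ∃ F : P, (τ ∈ Δ ∧ τ.card = k → F ∈ (W p τ) ^ (s + 1)) ∧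
      (¬ (τ ∈ Δ ∧ τ.card = k) → F = 0) ∧ D pw (s + 1) F = c τ := by
    intro τ
    by_cases h : τ ∈ Δ ∧ τ.card = k
    · obtain ⟨F, hF1, hF2⟩ := face_surj (notMem_face h3 hg h.1) s (c τ) ((hc τ).1 h)
      exact ⟨F, fun _ => hF1, fun h' => absurd h h', hF2⟩
    · exact ⟨0, fun h' => absurd h' h, fun _ => rfl, by rw [map_zero, (hc τ).2 h]⟩
  choose F hF1 hF2 hF3 using h1
  refine ⟨mk F 0, ?_, ?_⟩
  · rw [mem_chains_cone h3]
    refine ⟨fun τ => ?_, fun τ => ?_⟩
    · rw [mk_up]
      exact ⟨hF1 τ, hF2 τ⟩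
    · rw [mk_insert]
      exact ⟨fun _ => Submodule.zero_mem _, fun _ => rfl⟩
  · funext τ
    rw [Φ_apply, mk_up, hF3]

/-- A cycle in the kernel of `Φ`, in low degrees, is the boundary of a chain in the kernel. -/
theorem Φ_acyclic (h3 : ∀ ψ ∈ Δ, ψ.card ≤ 3) (hg : GeneralPosition p pw) {k : ℕ} (hk : k ≤ 2)
    {c : Finset (WithBot V) → P}
    (hc : c ∈ chains (truncatedCone Δ) (coneConfig pw p) (s + 1) k)
    (hΦ : Φ pw s c = 0) (hb : boundary (WithBot V) c = 0) :
    ∃ e ∈ chains (truncatedCone Δ) (coneConfig pw p) (s + 1) (k + 1), Φ pw s e = 0 ∧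
      boundary (WithBot V) e = c := by
  rw [mem_chains_cone h3] at hc
  have hcy : ∀ θ : Finset V, boundary V (fun τ => c (up τ)) θ + c (insert ⊥ (up θ)) = 0 := by
    intro θ
    rw [← boundary_up, hb]
    rfl
  refine ⟨mk 0 (fun τ => c (up τ)), ?_, ?_, ?_⟩
  · rw [mem_chains_cone h3]
    refine ⟨fun τ => ?_, fun τ => ?_⟩
    · rw [mk_up]
      exact ⟨fun _ => Submodule.zero_mem _, fun _ => rfl⟩
    · rw [mk_insert]
      constructor
      · rintro ⟨⟨h1, h2⟩, h4⟩
        have h5 : D pw (s + 1) (c (up τ)) = 0 := congrFun hΦ τ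
        exact face_ker (notMem_face h3 hg h1) s _ ((hc.1 τ).1 ⟨h1, by omega⟩) h5
      · intro h
        apply (hc.1 τ).2
        rintro ⟨h1, h2⟩
        exact h ⟨⟨h1, by omega⟩, by omega⟩
  · funext τ
    rw [Φ_apply, mk_up]
    simp
  · apply ext_cone
    · intro τ
      rw [boundary_up, mk_insert]
      have : (fun τ : Finset V => mk (0 : Finset V → P) (fun τ => c (up τ)) (up τ)) = 0 := by
        funext τ
        rw [mk_up]
      rw [this, map_zero]
      simp
    · intro τ
      rw [boundary_insert]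
      have : (fun τ : Finset V => mk (0 : Finset V → P) (fun τ => c (up τ)) (insert ⊥ (up τ))) =
          fun τ => c (up τ) := by
        funext τ
        rw [mk_insert]
      rw [this]
      exact neg_eq_of_add_eq_zero_right (hcy τ)

theorem Φ_cycles (h3 : ∀ ψ ∈ Δ, ψ.card ≤ 3) {k : ℕ} (x : Finset (WithBot V) → P)
    (hx : x ∈ cycles (truncatedCone Δ) (coneConfig pw p) (s + 1) k) :
    Φ pw s x ∈ cycles Δ p s k := by
  refine ⟨Φ_mem h3 hx.1, LinearMap.mem_ker.2 ?_⟩
  rw [← Φ_boundary h3 hx.1, LinearMap.mem_ker.1 hx.2, map_zero]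

theorem cone_down (hΔ : ∀ ψ ∈ Δ, ∀ θ ⊆ ψ, θ ∈ Δ) (h3 : ∀ ψ ∈ Δ, ψ.card ≤ 3) :
    ∀ ψ ∈ truncatedCone Δ, ∀ θ ⊆ ψ, θ ∈ truncatedCone Δ := by
  intro ψ hψ θ hθ
  have key : ∀ a b : Finset V, insert (⊥ : WithBot V) (up a) ⊆ insert ⊥ (up b) → a ⊆ b := by
    intro a b h v hv
    have := h (Finset.mem_insert_of_mem (coe_mem_up.2 hv))
    rcases Finset.mem_insert.1 this with h' | h'
    · exact absurd h' WithBot.coe_ne_bot
    · exact coe_mem_up.1 h'
  rcases eq_up_or ψ with ⟨h1, h⟩ | ⟨h1, h⟩ <;> rcases eq_up_or θ with ⟨h2, h'⟩ | ⟨h2, h'⟩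
  · rw [h, up_mem_cone h3] at hψ
    rw [h', up_mem_cone h3]
    refine hΔ _ hψ _ ?_
    intro v hv
    rw [mem_down] at hv ⊢
    exact hθ hv
  · exact absurd (hθ h2) h1
  · rw [h, insert_mem_cone] at hψ
    rw [h', up_mem_cone h3]
    refine hΔ _ hψ.1 _ ?_
    intro v hv
    rw [mem_down] at hv ⊢
    exact hθ hv
  · rw [h, insert_mem_cone] at hψ
    rw [h', insert_mem_cone]
    have hs : down θ ⊆ down ψ := by
      intro v hv
      rw [mem_down] at hv ⊢
      exact hθ hv
    exact ⟨hΔ _ hψ.1 _ hs, (Finset.card_le_card hs).trans hψ.2⟩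

/-- Lifting of cycles. -/
theorem Φ_cycles_surj (hΔ : ∀ ψ ∈ Δ, ∀ θ ⊆ ψ, θ ∈ Δ) (h3 : ∀ ψ ∈ Δ, ψ.card ≤ 3)
    (hg : GeneralPosition p pw) {k : ℕ} (hk : k ≤ 3) (z : Finset V → P)
    (hz : z ∈ cycles Δ p s k) :
    ∃ x ∈ cycles (truncatedCone Δ) (coneConfig pw p) (s + 1) k, Φ pw s x = z := by
  obtain ⟨c, hc, hcz⟩ := Φ_lift h3 hg hz.1
  rcases Nat.eq_zero_or_pos k with rfl | hk0
  · exact ⟨c, ⟨hc, LinearMap.mem_ker.2 (boundary_zero hc)⟩, hcz⟩
  · obtain ⟨j, rfl⟩ := Nat.exists_eq_succ_of_ne_zero hk0.ne'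
    obtain ⟨e, he, he1, he2⟩ := Φ_acyclic (k := j) h3 hg (by omega)
      (boundary_mem (cone_down hΔ h3) hc)
      (by rw [Φ_boundary h3 hc, hcz]; exact LinearMap.mem_ker.1 hz.2)
      (boundary_boundary c)
    refine ⟨c - e, ⟨Submodule.sub_mem _ hc he, LinearMap.mem_ker.2 ?_⟩, ?_⟩
    · rw [map_sub, he2, sub_self]
    · rw [map_sub, he1, hcz, sub_zero]

theorem betti_eq (hΔ : ∀ ψ ∈ Δ, ∀ θ ⊆ ψ, θ ∈ Δ) (h3 : ∀ ψ ∈ Δ, ψ.card ≤ 3)
    (hg : GeneralPosition p pw) {k : ℕ} (hk : k ≤ 2) :
    betti (truncatedCone Δ) (coneConfig pw p) (s + 1) k = betti Δ p s k := by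
  let Z' := cycles (truncatedCone Δ) (coneConfig pw p) (s + 1) k
  let Z := cycles Δ p s k
  let B' := ((chains (truncatedCone Δ) (coneConfig pw p) (s + 1) (k + 1)).map
    (boundary (WithBot V))).comap Z'.subtype
  let B := ((chains Δ p s (k + 1)).map (boundary V)).comap Z.subtype
  let φ₀ : Z' →ₗ[ℝ] Z := (Φ pw s).restrict (Φ_cycles h3)
  let φ : Z' →ₗ[ℝ] (Z ⧸ B) := B.mkQ.comp φ₀
  have hsurj : Function.Surjective φ := by
    intro y
    obtain ⟨z, rfl⟩ := B.mkQ_surjective y
    obtain ⟨x, hx, hxz⟩ := Φ_cycles_surj hΔ h3 hg (by omega) z.1 z.2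
    refine ⟨⟨x, hx⟩, ?_⟩
    have : φ₀ ⟨x, hx⟩ = z := Subtype.ext hxz
    change B.mkQ (φ₀ ⟨x, hx⟩) = _
    rw [this]
  have hker : LinearMap.ker φ = B' := by
    ext x
    rw [LinearMap.mem_ker]
    have e1 : φ x = 0 ↔ φ₀ x ∈ B := by
      change B.mkQ (φ₀ x) = 0 ↔ _
      rw [Submodule.mkQ_apply, Submodule.Quotient.mk_eq_zero]
    rw [e1]
    change Φ pw s x.1 ∈ (chains Δ p s (k + 1)).map (boundary V) ↔
      x.1 ∈ (chains (truncatedCone Δ) (coneConfig pw p) (s + 1) (k + 1)).map
        (boundary (WithBot V))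
    constructor
    · rintro ⟨y, hy, hyx⟩
      obtain ⟨y', hy', hyy⟩ := Φ_lift h3 hg hy
      obtain ⟨e, he, he1, he2⟩ := Φ_acyclic (c := x.1 - boundary (WithBot V) y') h3 hg hk
        (Submodule.sub_mem _ x.2.1 (boundary_mem (cone_down hΔ h3) hy'))
        (by rw [map_sub, Φ_boundary h3 hy', hyy, hyx, sub_self])
        (by rw [map_sub, LinearMap.mem_ker.1 x.2.2, boundary_boundary, sub_self])
      refine ⟨y' + e, Submodule.add_mem _ hy' he, ?_⟩
      rw [map_add, he2]
      abel
    · rintro ⟨y, hy, hyx⟩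
      refine ⟨Φ pw s y, Φ_mem h3 hy, ?_⟩
      rw [← Φ_boundary h3 hy, hyx]
  have e := (Submodule.quotEquivOfEq _ _ hker.symm).trans
    (φ.quotKerEquivOfSurjective hsurj)
  exact e.finrank_eq

/-! ### The top degree -/

instance chains_finite {U : Type} [Finite U] (Γ : Set (Finset U)) (q : U → Fin 3 → ℝ)
    (n k : ℕ) : FiniteDimensional ℝ (chains Γ q n k) := by
  have hle : ∀ c : chains Γ q n k, ∀ ψ, c.1 ψ ∈ restrictTotalDegree (Fin 3) ℝ n := by
    intro c ψ
    by_cases h : ψ ∈ Γ ∧ ψ.card = k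
    · have h1 := (c.2 ψ).1 h
      rw [restrict_eq q n]
      rw [cofactorSpace_eq] at h1
      have hle : W q ψ ≤ W q ∅ := fun f hf => ⟨hf.1, by simp⟩
      exact (pow_le_pow_left' hle n) h1
    · rw [(c.2 ψ).2 h]
      exact Submodule.zero_mem _
  let F : chains Γ q n k →ₗ[ℝ] (Finset U → restrictTotalDegree (Fin 3) ℝ n) :=
    { toFun := fun c ψ => ⟨c.1 ψ, hle c ψ⟩
      map_add' := fun a b => rfl
      map_smul' := fun r a => rfl }
  refine FiniteDimensional.of_injective F ?_
  intro a b h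
  apply Subtype.ext
  funext ψ
  exact congrArg Subtype.val (congrFun h ψ)

theorem betti_top {U : Type} [Fintype U] [LinearOrder U] {Γ : Set (Finset U)}
    (h3 : ∀ ψ ∈ Γ, ψ.card ≤ 3) (q : U → Fin 3 → ℝ) (n : ℕ) :
    betti Γ q n 3 = Module.finrank ℝ (cycles Γ q n 3) := by
  unfold betti
  have h4 : chains Γ q n (3 + 1) = ⊥ := by
    rw [Submodule.eq_bot_iff]
    intro c hc
    funext ψ
    apply (hc ψ).2
    rintro ⟨h1, h2⟩
    have := h3 ψ h1
    omega
  have h5 : ((chains Γ q n (3 + 1)).map (boundary U)).comap (cycles Γ q n 3).subtype = ⊥ := by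
    rw [h4, Submodule.map_bot, Submodule.comap_bot, Submodule.ker_subtype]
  rw [h5]
  exact (Submodule.quotEquivOfEqBot _ rfl).finrank_eq

theorem betti_three (hΔ : ∀ ψ ∈ Δ, ∀ θ ⊆ ψ, θ ∈ Δ) (h3 : ∀ ψ ∈ Δ, ψ.card ≤ 3)
    (hg : GeneralPosition p pw) :
    betti (truncatedCone Δ) (coneConfig pw p) (s + 1) 3 = betti Δ p s 3 ↔
      ∀ σ ∈ Δ, σ.card = 3 → AffineIndependent ℝ (fun v : σ => p v) := by
  rw [betti_top (fun ψ hψ => hψ.1), betti_top h3]
  let Z' := cycles (truncatedCone Δ) (coneConfig pw p) (s + 1) 3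
  let Z := cycles Δ p s 3
  let φ : Z' →ₗ[ℝ] Z := (Φ pw s).restrict (Φ_cycles h3)
  have : FiniteDimensional ℝ Z' :=
    Submodule.finiteDimensional_of_le (inf_le_left : Z' ≤ _)
  have hsurj : LinearMap.range φ = ⊤ := by
    rw [LinearMap.range_eq_top]
    intro z
    obtain ⟨x, hx, hxz⟩ := Φ_cycles_surj hΔ h3 hg le_rfl z.1 z.2
    exact ⟨⟨x, hx⟩, Subtype.ext hxz⟩
  have hrn := LinearMap.finrank_range_add_finrank_ker φ
  rw [hsurj, finrank_top] at hrn
  have h1 : Module.finrank ℝ Z' = Module.finrank ℝ Z ↔ LinearMap.ker φ = ⊥ := by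
    rw [← Submodule.finrank_eq_zero (R := ℝ) (M := Z')]
    omega
  change Module.finrank ℝ Z' = Module.finrank ℝ Z ↔ _
  rw [h1]
  constructor
  · intro hk σ hσ hc
    rw [← W₀_eq_bot hc (notMem_face h3 hg hσ), Submodule.eq_bot_iff]
    intro f hf
    by_contra hf0
    let a : Finset V → P := fun τ => if τ = σ then f ^ (s + 1) else 0
    have ha : ∀ τ, a τ ∈ (W₀ p pw τ) ^ (s + 1) := by
      intro τ
      simp only [a]
      split_ifs with h
      · rw [h]; exact Submodule.pow_mem_pow _ hf _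
      · exact Submodule.zero_mem _
    have hba : ∀ τ, boundary V a τ ∈ (W₀ p pw τ) ^ (s + 1) := by
      intro τ
      rw [boundary_apply]
      apply Submodule.sum_mem
      intro u _
      split_ifs
      · exact Submodule.zero_mem _
      · apply Submodule.smul_mem
        exact pow_le_pow_left' (W₀_mono p pw (Finset.subset_insert _ _)) _ (ha _)
    have hba0 : ∀ τ, ¬ ((τ ∈ Δ ∧ τ.card ≤ 2) ∧ τ.card + 1 = 3) → boundary V a τ = 0 := by
      intro τ hτ
      rw [boundary_apply]
      apply Finset.sum_eq_zero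
      intro u _
      split_ifs with hu
      · rfl
      · simp only [a]
        rw [if_neg, smul_zero]
        intro h
        apply hτ
        have h4 : τ ∈ Δ := hΔ σ hσ τ (h ▸ Finset.subset_insert _ _)
        have h5 : τ.card + 1 = 3 := by
          rw [← hc, ← h, Finset.card_insert_of_notMem hu]
        exact ⟨⟨h4, by omega⟩, h5⟩
    have hmem : mk a (fun τ => - boundary V a τ) ∈
        chains (truncatedCone Δ) (coneConfig pw p) (s + 1) 3 := by
      rw [mem_chains_cone h3]
      refine ⟨fun τ => ?_, fun τ => ?_⟩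
      · rw [mk_up]
        constructor
        · intro _
          have hle : W₀ p pw τ ≤ W p τ := fun f hf => hf.1
          exact (pow_le_pow_left' hle _) (ha τ)
        · intro h
          simp only [a]
          rw [if_neg]
          rintro rfl
          exact h ⟨hσ, hc⟩
      · rw [mk_insert]
        exact ⟨fun _ => Submodule.neg_mem _ (hba τ), fun h => by rw [hba0 τ h, neg_zero]⟩
    have hcyc : boundary (WithBot V) (mk a (fun τ => - boundary V a τ)) = 0 := by
      apply ext_cone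
      · intro τ
        rw [boundary_up, mk_insert]
        have : (fun τ : Finset V => mk a (fun τ => - boundary V a τ) (up τ)) = a := by
          funext τ
          rw [mk_up]
        rw [this, add_neg_cancel]
        rfl
      · intro τ
        rw [boundary_insert]
        have : (fun τ : Finset V => mk a (fun τ => - boundary V a τ) (insert ⊥ (up τ))) =
            - boundary V a := by
          funext τ
          rw [mk_insert]
          rfl
        rw [this, map_neg, boundary_boundary]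
        simp
    have hZ : mk a (fun τ => - boundary V a τ) ∈ Z' := ⟨hmem, hcyc⟩
    have hφ : φ ⟨_, hZ⟩ = 0 := by
      apply Subtype.ext
      funext τ
      change D pw (s + 1) (mk a _ (up τ)) = 0
      rw [mk_up]
      exact face_D_zero _ _ (ha τ)
    have h4 : (⟨_, hZ⟩ : Z') ∈ LinearMap.ker φ := hφ
    rw [hk, Submodule.mem_bot] at h4
    have h5 : mk a (fun τ => - boundary V a τ) (up σ) = 0 :=
      congrFun (congrArg Subtype.val h4) (up σ)
    rw [mk_up] at h5
    simp only [a, if_true] at h5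
    exact hf0 (pow_eq_zero_iff (by omega) |>.1 h5)
  · intro hi
    rw [Submodule.eq_bot_iff]
    rintro ⟨c, hc⟩ hcφ
    have hc1 := (mem_chains_cone h3).1 hc.1
    have hup : ∀ τ : Finset V, c (up τ) = 0 := by
      intro τ
      by_cases h : τ ∈ Δ ∧ τ.card = 3
      · have h5 : D pw (s + 1) (c (up τ)) = 0 :=
          congrFun (congrArg Subtype.val (LinearMap.mem_ker.1 hcφ)) τ
        have h6 := face_ker (notMem_face h3 hg h.1) s _ ((hc1.1 τ).1 h) h5
        rw [(W₀_eq_bot h.2 (notMem_face h3 hg h.1)).2 (hi τ h.1 h.2),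
          Submodule.bot_pow (by omega)] at h6
        exact h6
      · exact (hc1.1 τ).2 h
    apply Subtype.ext
    apply ext_cone
    · intro τ
      exact hup τ
    · intro τ
      have h5 : boundary (WithBot V) c (up τ) = 0 := by
        rw [LinearMap.mem_ker.1 hc.2]
        rfl
      rw [boundary_up] at h5
      have h6 : (fun τ : Finset V => c (up τ)) = 0 := funext hup
      rw [h6, map_zero] at h5
      simpa using h5

end Main

/-- **Theorem.** Let `Δ` be a finite abstract simplicial 2-complex on the vertex set `V`, `p` any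
3-configuration, `s ≥ 0` and `pw` a point in general position relative to `p`. Coning preserves the
Betti numbers `β_{-1}, β_0, β_1` of the cofactor complex (index `k = i + 1`), and it preserves all
the Betti numbers `β_{-1}, ..., β_2` if and only if `p` places every 2-simplex of `Δ` at affinely
independent points. -/
theorem result (V : Type) [Fintype V] [LinearOrder V] (Δ : Set (Finset V))
    (hempty : ∅ ∈ Δ) (hvert : ∀ v : V, {v} ∈ Δ) (hdown : ∀ ψ ∈ Δ, ∀ θ ⊆ ψ, θ ∈ Δ)
    (hdim : ∀ ψ ∈ Δ, ψ.card ≤ 3) (p : V → Fin 3 → ℝ) (s : ℕ) (pw : Fin 3 → ℝ)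
    (hgen : GeneralPosition p pw) :
    (∀ k ≤ 2, betti Δ p s k = betti (truncatedCone Δ) (coneConfig pw p) (s + 1) k) ∧
    ((∀ k ≤ 3, betti Δ p s k = betti (truncatedCone Δ) (coneConfig pw p) (s + 1) k) ↔
      ∀ σ ∈ Δ, σ.card = 3 → AffineIndependent ℝ (fun v : σ => p v)) := by
  refine ⟨fun k hk => (betti_eq hdown hdim hgen hk).symm, ?_⟩
  rw [← betti_three (s := s) hdown hdim hgen]
  constructor
  · intro h
    exact (h 3 le_rfl).symm
  · intro h k hk
    rcases Nat.lt_or_ge k 3 with h1 | h1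
    · exact (betti_eq hdown hdim hgen (by omega)).symm
    · obtain rfl : k = 3 := by omega
      exact h.symm

end Pool.Agent.Results.MP_9cf723_co.Coning
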